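import Pool.Agent.MP_3ad207_lc.H43.Final
import Pool.Agent.MP_3ad207_lc.H56.Inst

/-!
Maximum independent set in even-hole-free graphs in polynomial time: own statement beside the
frozen one. One total function on bit strings, computed in polynomial time on every input by a
stack machine all of whose stack alphabets are finite.
-/

set_option autoImplicit false

namespace Pool.Agent.Results.MP_3ad207_lc.PolyTime

open Set Pool.Agent.Shared.H56 Pool.Agent.MP_3ad207_lc.H56

theorem result :
    ∃ (f : List Bool → List Bool)
      (M : Turing.TM2ComputableInPolyTime (id : List Bool → List Bool)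
        (id : List Bool → List Bool) f),
      (∀ k, Finite (M.tm.Γ k)) ∧
      ∀ (n : ℕ) (G : SimpleGraph (Fin n)) [DecidableRel G.Adj],
        (∀ k : ℕ, 2 ≤ k →
          IsEmpty (SimpleGraph.Embedding (SimpleGraph.cycleGraph (2 * k)) G)) →
        ∃ s : Finset (Fin n), G.IsMaximumIndepSet s ∧
          f ((List.finRange n).flatMap
              (fun i => (List.finRange n).map (fun j => decide (G.Adj i j)))) =
            (List.finRange n).map (fun i => decide (i ∈ s)) := by
  classical
  obtain ⟨K, hs⟩ := stepOK Pool.Agent.Ehf.mainAll
  obtain ⟨F, h1, h2⟩ := real_mis theOps_real K 2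
  let N : Raw → ℕ := fun r =>
    ((List.range r.s.length).filter fun k => decide (k * k < r.s.length)).length
  have hN : PT fun r => un (N r) :=
    PT.un_length (PT.filter (f := fun (r : Raw) k => decide (k * k < r.s.length)) (by fun_prop)
      (by fun_prop))
  have hN' : PT N := hN.of_un
  have h3 : PT fun r : Raw => (List.range (N r)).map fun i => (r.s.drop (i * N r)).take (N r) :=
    PT.map (f := fun (r : Raw) i => (r.s.drop (i * N r)).take (N r)) (by fun_prop) (by fun_prop)
  have h4 : PT fun r : Raw =>
      Raw.mk (F ((List.range (N r)).map fun i => (r.s.drop (i * N r)).take (N r), [])) := by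
    fun_prop
  obtain ⟨p, T, hp⟩ := h4
  let f : List Bool → List Bool := fun l =>
    F ((List.range (N ⟨l⟩)).map fun i => (l.drop (i * N ⟨l⟩)).take (N ⟨l⟩), [])
  have hp' : ∀ l : List Bool, Exec p (one l) (one (f l)) (T.eval l.length) := fun l => hp ⟨l⟩
  refine ⟨f,
    { tm := p.tm
      inputAlphabet := Equiv.refl _
      outputAlphabet := Equiv.refl _
      time := T
      outputsFun := fun l =>
        (show Exec p (one (List.map id l)) (one (List.map id (f l))) (T.eval l.length) by
          simpa using hp' l).outputs.some },
    fun _ => (inferInstance : Finite Bool), fun n G _ hG => ?_⟩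
  obtain ⟨h5, h6⟩ := mis_max hs hG
  refine ⟨(mis theOps K 2 G).toFinset, ⟨by simpa using h5, fun t ht => ?_⟩, ?_⟩
  · have := h6 t ht
    rwa [ncard_coe_finset, ncard_eq_toFinset_card'] at this
  · have hl : ((List.finRange n).flatMap
        (fun i => (List.finRange n).map (fun j => decide (G.Adj i j)))).length = n * n := by
      simp [List.length_flatMap]
    have h8 : N ⟨(List.finRange n).flatMap
        (fun i => (List.finRange n).map (fun j => decide (G.Adj i j)))⟩ = n := by
      simp only [N, hl, sqrt_count]
    have h9 := chunk n (fun i => (List.finRange n).map (fun j => decide (G.Adj i j))) (by simp)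
      (List.finRange n)
    rw [List.length_finRange] at h9
    have h10 : (List.finRange n).map (fun i => (List.finRange n).map
        (fun j => decide (G.Adj i j))) = gcode G :=
      List.map_congr_left fun i _ => List.map_congr_left fun j _ => decide_eq_decide.2 Iff.rfl
    have h11 : code (mis theOps K 2 G) =
        (List.finRange n).map (fun i => decide (i ∈ (mis theOps K 2 G).toFinset)) :=
      List.map_congr_left fun i _ => decide_eq_decide.2 (by simp)
    have h12 : F (gcode G, []) = code (mis theOps K 2 G) := h2 n G []
    simp only [f, h8, h9, h10, h12, h11]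

end Pool.Agent.Results.MP_3ad207_lc.PolyTime
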